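import Mathlib

/-!
# MP_337ab5_co, Q1: the permutation-building game under Convention I

Player A wins exactly for `N = 1` and `N = 2`; player B wins for every `N ≥ 3`.
-/

namespace Pool.Agent.Results.MP_337ab5_co.ConventionOne

open Equiv

variable {N : ℕ}

/-- The entries already present in the word that is being built, where `w` is the list of all
entries chosen so far (first word followed by second word). -/
def used (N : ℕ) (w : List (Fin N)) : List (Fin N) :=
  if w.length < N then w else w.drop N

/-- The list `w` of `2N` entries consists of two permutations `σ, τ` generating the symmetric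
group. -/
def Generates (N : ℕ) (w : List (Fin N)) : Prop :=
  ∃ σ τ : Perm (Fin N),
    (∀ i : Fin N, w[(i : ℕ)]? = some (σ i)) ∧ (∀ i : Fin N, w[N + (i : ℕ)]? = some (τ i)) ∧
      Subgroup.closure {σ, τ} = ⊤

/-- Convention I.  With positions counted from `0`, player A chooses the entries at the even
positions of both words.  (`k` is the number of entries chosen so far.) -/
def turnA (N : ℕ) (k : ℕ) : Bool :=
  decide ((if k < N then k else k - N) % 2 = 0)

/-- `Wins N P m w`: at the position `w`, with `m` entries still to be chosen, the player `P`
(`true` for A, `false` for B) has a winning strategy. -/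
def Wins (N : ℕ) (P : Bool) : ℕ → List (Fin N) → Prop
  | 0, w => if P = true then Generates N w else ¬ Generates N w
  | (m + 1), w =>
      if turnA N w.length = P then
        ∃ v : Fin N, v ∉ used N w ∧ Wins N P m (w ++ [v])
      else
        ∀ v : Fin N, v ∉ used N w → Wins N P m (w ++ [v])

/-- Player A has a winning strategy in the game for `N` under Convention I. -/
def PlayerAWins (N : ℕ) : Prop := Wins N true (2 * N) []

/-- Player B has a winning strategy in the game for `N` under Convention I. -/
def PlayerBWins (N : ℕ) : Prop := Wins N false (2 * N) []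

/-! ### Not both players win -/

theorem used_length_lt {w : List (Fin N)} (h : w.length < 2 * N) : (used N w).length < N := by
  unfold used
  split_ifs with h1
  · exact h1
  · rw [List.length_drop]; omega

theorem exists_legal {w : List (Fin N)} (h : w.length < 2 * N) : ∃ v : Fin N, v ∉ used N w := by
  by_contra hcon
  push Not at hcon
  have h1 : (Finset.univ : Finset (Fin N)) ⊆ (used N w).toFinset := by
    intro v _
    exact List.mem_toFinset.mpr (hcon v)
  have h2 := Finset.card_le_card h1
  rw [Finset.card_univ, Fintype.card_fin] at h2
  have h3 := List.toFinset_card_le (used N w)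
  have h4 := used_length_lt h
  omega

theorem not_both (m : ℕ) : ∀ w : List (Fin N), w.length + m = 2 * N →
    Wins N true m w → Wins N false m w → False := by
  induction m with
  | zero =>
    intro w _ h1 h2
    simp only [Wins] at h1 h2
    simp at h1 h2
    exact h2 h1
  | succ m ih =>
    intro w hw h1 h2
    obtain ⟨v₀, hv₀⟩ := exists_legal (w := w) (by omega)
    simp only [Wins] at h1 h2
    cases ht : turnA N w.length with
    | true =>
      rw [ht] at h1 h2
      simp only [if_true] at h1
      simp only [Bool.true_eq_false, if_false] at h2
      obtain ⟨v, hv, hw1⟩ := h1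
      exact ih (w ++ [v]) (by simp; omega) hw1 (h2 v hv)
    | false =>
      rw [ht] at h1 h2
      simp only [if_true] at h2
      simp only [Bool.false_eq_true, if_false] at h1
      obtain ⟨v, hv, hw2⟩ := h2
      exact ih (w ++ [v]) (by simp; omega) (h1 v hv) hw2

/-! ### An invariant principle for player B -/

theorem wins_of_invariant (Inv : List (Fin N) → Prop)
    (hB : ∀ w, w.length < 2 * N → turnA N w.length = false → Inv w →
      ∃ v, v ∉ used N w ∧ Inv (w ++ [v]))
    (hA : ∀ w, w.length < 2 * N → turnA N w.length = true → Inv w →
      ∀ v, v ∉ used N w → Inv (w ++ [v]))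
    (hE : ∀ w, w.length = 2 * N → Inv w → ¬ Generates N w) (m : ℕ) :
    ∀ w, w.length + m = 2 * N → Inv w → Wins N false m w := by
  induction m with
  | zero =>
    intro w hw hi
    simp only [Wins]
    simpa using hE w (by omega) hi
  | succ m ih =>
    intro w hw hi
    simp only [Wins]
    split_ifs with ht
    · obtain ⟨v, hv, hv'⟩ := hB w (by omega) ht hi
      exact ⟨v, hv, ih _ (by simp; omega) hv'⟩
    · have ht' : turnA N w.length = true := by simpa using ht
      intro v hv
      exact ih _ (by simp; omega) (hA w (by omega) ht' hi v hv)

theorem used_append {w : List (Fin N)} (v : Fin N) (_ : w.length < 2 * N) :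
    used N (w ++ [v]) = if w.length + 1 = N then [] else used N w ++ [v] := by
  unfold used
  rw [List.length_append, List.length_singleton]
  by_cases h1 : w.length + 1 = N
  · rw [if_neg (by omega), if_pos h1]
    apply List.drop_eq_nil_of_le
    simp; omega
  · rw [if_neg h1]
    by_cases h2 : w.length < N
    · rw [if_pos (by omega), if_pos h2]
    · rw [if_neg (by omega), if_neg h2, List.drop_append_of_le_length (by omega)]

/-! ### Even `N`: player B preserves a system of blocks of size two -/

section Even

variable (hN : N % 2 = 0)

/-- The partner of `2j` is `2j + 1`, and conversely. -/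
def partner (x : Fin N) : Fin N :=
  ⟨if x.1 % 2 = 0 then x.1 + 1 else x.1 - 1, by
    have := x.2
    split_ifs <;> omega⟩

theorem partner_val (x : Fin N) :
    (partner hN x).1 = if x.1 % 2 = 0 then x.1 + 1 else x.1 - 1 := rfl

theorem partner_partner (x : Fin N) : partner hN (partner hN x) = x := by
  apply Fin.ext
  rw [partner_val, partner_val]
  split_ifs <;> omega

theorem partner_ne (x : Fin N) : partner hN x ≠ x := by
  intro h
  have := congrArg Fin.val h
  rw [partner_val] at this
  split_ifs at this <;> omega

/-- `used` is closed under taking partners. -/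
def Closed (w : List (Fin N)) : Prop := ∀ x ∈ used N w, partner hN x ∈ used N w

/-- The invariant for even `N`. -/
def InvEven (w : List (Fin N)) : Prop :=
  (∀ k, 2 * k + 1 < w.length → w[2 * k + 1]? = (w[2 * k]?).map (partner hN)) ∧
  (w.length % 2 = 0 → Closed hN w) ∧
  (w.length % 2 = 1 → ∃ w' a, w = w' ++ [a] ∧ Closed hN w' ∧ a ∉ used N w')

include hN in
theorem turn_even {k : ℕ} : turnA N k = decide (k % 2 = 0) := by
  unfold turnA
  congr 1
  apply propext
  split_ifs <;> omega

include hN in
theorem bWins_even (h3 : 3 ≤ N) : PlayerBWins N := by
  apply wins_of_invariant (InvEven hN) ?_ ?_ ?_ (2 * N) [] (by simp)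
  · refine ⟨by simp, ?_, by simp⟩
    intro _ x hx
    unfold used at hx
    simp [show 0 < N by omega] at hx
  · -- moves of B
    intro w hw ht hi
    rw [turn_even hN] at ht
    have hodd : w.length % 2 = 1 := by
      have := of_decide_eq_false ht
      omega
    obtain ⟨h1, h2, h3⟩ := hi
    obtain ⟨w', a, rfl, hcl, ha⟩ := h3 hodd
    have hl : w'.length + 1 < 2 * N := by simpa using hw
    have hodd' : (w'.length + 1) % 2 = 1 := by simpa using hodd
    have hu : used N (w' ++ [a]) = used N w' ++ [a] := by
      rw [used_append a (by omega), if_neg (by omega)]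
    refine ⟨partner hN a, ?_, ?_, ?_, ?_⟩
    · rw [hu, List.mem_append, List.mem_singleton]
      rintro (h | h)
      · have := hcl _ h
        rw [partner_partner] at this
        exact ha this
      · exact partner_ne hN a h
    · intro k hk
      simp only [List.length_append, List.length_singleton] at hk
      by_cases hk' : 2 * k + 1 < w'.length + 1
      · have := h1 k (by simpa using hk')
        rw [List.getElem?_append_left (l₁ := w' ++ [a]) (by simp; omega),
          List.getElem?_append_left (l₁ := w' ++ [a]) (by simp; omega)]
        exact this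
      · have e1 : 2 * k + 1 = w'.length + 1 := by omega
        have e2 : 2 * k = w'.length := by omega
        rw [e1, e2]
        rw [List.getElem?_append_right (by simp), List.getElem?_append_left (by simp),
          List.getElem?_append_right (by simp)]
        simp
    · intro _ x hx
      rw [used_append _ (by simpa using hw)] at hx ⊢
      split_ifs at hx ⊢ with hc
      · simp at hx
      · rw [hu] at hx ⊢
        simp only [List.append_assoc, List.mem_append, List.mem_singleton] at hx ⊢
        rcases hx with hx | hx | hx
        · exact Or.inl (hcl _ hx)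
        · right; right; rw [hx]
        · right; left; rw [hx, partner_partner]
    · intro h
      simp only [List.length_append, List.length_singleton] at h
      omega
  · -- moves of A
    intro w hw ht hi v hv
    rw [turn_even hN] at ht
    have heven : w.length % 2 = 0 := of_decide_eq_true ht
    obtain ⟨h1, h2, h3⟩ := hi
    refine ⟨?_, ?_, ?_⟩
    · intro k hk
      simp only [List.length_append, List.length_singleton] at hk
      rw [List.getElem?_append_left (by omega), List.getElem?_append_left (by omega)]
      exact h1 k (by omega)
    · intro h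
      simp only [List.length_append, List.length_singleton] at h
      omega
    · intro _
      exact ⟨w, v, rfl, h2 heven, hv⟩
  · -- the end
    intro w hw hi hg
    obtain ⟨h1, -, -⟩ := hi
    obtain ⟨σ, τ, hσ, hτ, hcl⟩ := hg
    have key : ∀ (ρ : Perm (Fin N)) (s : ℕ), s % 2 = 0 → s ≤ N →
        (∀ i : Fin N, w[s + (i : ℕ)]? = some (ρ i)) →
        ∀ x, ρ (partner hN x) = partner hN (ρ x) := by
      intro ρ s hs hsN hρ
      have hev : ∀ x : Fin N, x.1 % 2 = 0 → ρ (partner hN x) = partner hN (ρ x) := by
        intro x hx
        have hx2 := x.2
        have h := h1 ((s + x.1) / 2) (by omega)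
        have e2 : 2 * ((s + x.1) / 2) = s + x.1 := by omega
        have e1 : s + x.1 + 1 = s + (partner hN x).1 := by
          rw [partner_val, if_pos hx]; omega
        rw [e2, e1, hρ, hρ] at h
        simpa using h
      intro x
      by_cases hx : x.1 % 2 = 0
      · exact hev x hx
      · have h := hev (partner hN x) (by rw [partner_val, if_neg hx]; omega)
        rw [partner_partner] at h
        rw [h, partner_partner]
    have kσ := key σ 0 rfl (by omega) (fun i => by rw [Nat.zero_add]; exact hσ i)
    have kτ := key τ N hN le_rfl hτ
    have hall : ∀ g : Perm (Fin N), ∀ x, g (partner hN x) = partner hN (g x) := by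
      intro g
      have hg : g ∈ Subgroup.closure {σ, τ} := by rw [hcl]; exact Subgroup.mem_top g
      induction hg using Subgroup.closure_induction with
      | mem x hx =>
        rcases hx with rfl | hx
        · exact kσ
        · rw [Set.mem_singleton_iff] at hx
          rw [hx]
          exact kτ
      | one => intro x; rfl
      | mul a b _ _ ha hb =>
        intro x
        rw [Perm.mul_apply, Perm.mul_apply, hb, ha]
      | inv a _ ha =>
        intro x
        have h := ha (a⁻¹ x)
        have e : a (a⁻¹ x) = x := by simp
        rw [e] at h
        rw [← h]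
        simp
    have h := hall (swap ⟨1, by omega⟩ ⟨2, by omega⟩) ⟨0, by omega⟩
    have e : partner hN ⟨0, by omega⟩ = ⟨1, by omega⟩ := rfl
    rw [e, swap_apply_left, swap_apply_of_ne_of_ne (by simp) (by simp), e] at h
    simp at h

end Even

/-! ### Odd `N`: player B makes both permutations even -/

section Odd

theorem perm_eq_of_forall_ne {σ ρ : Perm (Fin N)} (p : Fin N) (h : ∀ i, i ≠ p → ρ i = σ i) :
    ρ = σ := by
  have hp : ρ p = σ p := by
    obtain ⟨k, hk⟩ := σ.surjective (ρ p)
    by_cases hkp : k = p
    · rw [← hk, hkp]
    · rw [← h k hkp] at hk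
      exact absurd (ρ.injective hk) hkp
  ext i
  by_cases hi : i = p
  · rw [hi, hp]
  · rw [h i hi]

/-- Among two remaining values, one leads to an even permutation only. -/
theorem exists_even_choice (u : List (Fin N)) (hnd : u.Nodup) (hlen : u.length + 2 = N) :
    ∃ v, v ∉ u ∧ ∀ σ : Perm (Fin N),
      (∀ i : Fin N, (i : ℕ) < N - 1 → (u ++ [v])[(i : ℕ)]? = some (σ i)) → Perm.sign σ = 1 := by
  have hcard : (Finset.univ \ u.toFinset : Finset (Fin N)).card = 2 := by
    rw [Finset.card_sdiff_of_subset (Finset.subset_univ _), Finset.card_univ, Fintype.card_fin,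
      List.toFinset_card_of_nodup hnd]
    omega
  obtain ⟨a, b, hab, hset⟩ := Finset.card_eq_two.mp hcard
  have ha : a ∉ u := by
    have : a ∈ (Finset.univ \ u.toFinset : Finset (Fin N)) := by rw [hset]; simp
    simpa using this
  have hb : b ∉ u := by
    have : b ∈ (Finset.univ \ u.toFinset : Finset (Fin N)) := by rw [hset]; simp
    simpa using this
  by_cases hgood : ∀ σ : Perm (Fin N),
      (∀ i : Fin N, (i : ℕ) < N - 1 → (u ++ [a])[(i : ℕ)]? = some (σ i)) → Perm.sign σ = 1
  · exact ⟨a, ha, hgood⟩
  · push Not at hgood
    obtain ⟨σ, hσ, hs⟩ := hgood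
    refine ⟨b, hb, fun σ' hσ' => ?_⟩
    let p : Fin N := ⟨N - 2, by omega⟩
    let q : Fin N := ⟨N - 1, by omega⟩
    have hpq : p ≠ q := by
      intro h
      have := congrArg Fin.val h
      simp only [p, q] at this
      omega
    have hσp : σ p = a := by
      have h := hσ p (by simp only [p]; omega)
      rw [List.getElem?_append_right (by simp only [p]; omega)] at h
      have e : (p : ℕ) - u.length = 0 := by simp only [p]; omega
      rw [e] at h
      simpa using h.symm
    have hσp' : σ' p = b := by
      have h := hσ' p (by simp only [p]; omega)
      rw [List.getElem?_append_right (by simp only [p]; omega)] at h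
      have e : (p : ℕ) - u.length = 0 := by simp only [p]; omega
      rw [e] at h
      simpa using h.symm
    have hlow : ∀ i : Fin N, (i : ℕ) < N - 2 → u[(i : ℕ)]? = some (σ i) ∧ σ' i = σ i := by
      intro i hi
      have h1 := hσ i (by omega)
      have h2 := hσ' i (by omega)
      rw [List.getElem?_append_left (by omega)] at h1 h2
      refine ⟨h1, ?_⟩
      rw [h1] at h2
      exact (Option.some.inj h2).symm
    have hσq : σ q = b := by
      obtain ⟨j, hj⟩ := σ.surjective b
      by_cases h1 : (j : ℕ) < N - 2
      · exfalso
        have h := (hlow j h1).1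
        rw [hj] at h
        exact hb (List.mem_of_getElem? h)
      · by_cases h2 : j = p
        · exfalso
          rw [h2, hσp] at hj
          exact hab hj
        · have h3 : j = q := by
            apply Fin.ext
            have hj2 := j.2
            have : (j : ℕ) ≠ N - 2 := fun h => h2 (Fin.ext h)
            simp only [q]
            omega
          rw [← h3, hj]
    have hEq : σ' * swap p q = σ := by
      apply perm_eq_of_forall_ne p
      intro i hi
      rw [Perm.mul_apply]
      by_cases hq : i = q
      · rw [hq, swap_apply_right, hσp', hσq]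
      · rw [swap_apply_of_ne_of_ne hi hq]
        apply (hlow i _).2
        have hi2 := i.2
        have h1 : (i : ℕ) ≠ N - 2 := fun h => hi (Fin.ext h)
        have h2 : (i : ℕ) ≠ N - 1 := fun h => hq (Fin.ext h)
        omega
    have hsign : Perm.sign σ = - Perm.sign σ' := by
      rw [← hEq, Perm.sign_mul, Perm.sign_swap hpq]
      simp
    rcases Int.units_eq_one_or (Perm.sign σ') with h | h
    · exact h
    · exfalso
      rw [h] at hsign
      exact hs (by rw [hsign]; simp)

/-- Every permutation whose word starts (after `s` entries) with the entries of `w` is even. -/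
def EvenFrom (w : List (Fin N)) (s : ℕ) : Prop :=
  ∀ σ : Perm (Fin N), (∀ i : Fin N, s + (i : ℕ) < w.length → w[s + (i : ℕ)]? = some (σ i)) →
    Perm.sign σ = 1

theorem EvenFrom.append {w : List (Fin N)} {s : ℕ} (h : EvenFrom w s) (v : Fin N) :
    EvenFrom (w ++ [v]) s := by
  intro σ hσ
  apply h σ
  intro i hi
  have := hσ i (by simp; omega)
  rwa [List.getElem?_append_left hi] at this

/-- The invariant for odd `N`. -/
def InvOdd (w : List (Fin N)) : Prop :=
  (used N w).Nodup ∧ (N - 1 ≤ w.length → EvenFrom w 0) ∧ (2 * N - 1 ≤ w.length → EvenFrom w N)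

theorem nodup_append {w : List (Fin N)} (hw : w.length < 2 * N) (h : (used N w).Nodup) {v : Fin N}
    (hv : v ∉ used N w) : (used N (w ++ [v])).Nodup := by
  rw [used_append v hw]
  split_ifs
  · exact List.nodup_nil
  · rw [List.nodup_append]
    refine ⟨h, List.nodup_singleton v, ?_⟩
    intro x hx y hy hxy
    rw [List.mem_singleton] at hy
    rw [hxy, hy] at hx
    exact hv hx

theorem bWins_odd (hN : N % 2 = 1) (h3 : 3 ≤ N) : PlayerBWins N := by
  apply wins_of_invariant InvOdd ?_ ?_ ?_ (2 * N) [] (by simp)
  · refine ⟨?_, ?_, ?_⟩
    · simp [used]
    · intro h; simp at h; omega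
    · intro h; simp at h; omega
  · -- moves of B
    intro w hw _ hi
    obtain ⟨hnd, h1, h2⟩ := hi
    by_cases c1 : w.length = N - 2
    · have hu : used N w = w := by unfold used; rw [if_pos (by omega)]
      rw [hu] at hnd
      obtain ⟨v, hv, hv'⟩ := exists_even_choice w hnd (by omega)
      refine ⟨v, by rw [hu]; exact hv, nodup_append hw (by rw [hu]; exact hnd) (by rw [hu]; exact hv),
        ?_, ?_⟩
      · intro _ σ hσ
        apply hv' σ
        intro i hi
        have := hσ i (by simp; omega)
        rwa [Nat.zero_add] at this
      · intro h
        simp only [List.length_append, List.length_singleton] at h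
        omega
    · by_cases c2 : w.length = 2 * N - 2
      · have hu : used N w = w.drop N := by unfold used; rw [if_neg (by omega)]
        rw [hu] at hnd
        obtain ⟨v, hv, hv'⟩ := exists_even_choice (w.drop N) hnd (by rw [List.length_drop]; omega)
        refine ⟨v, by rw [hu]; exact hv,
          nodup_append hw (by rw [hu]; exact hnd) (by rw [hu]; exact hv), ?_, ?_⟩
        · intro _
          exact (h1 (by omega)).append v
        · intro _ σ hσ
          apply hv' σ
          intro i hi
          have := hσ i (by simp; omega)
          rw [← List.getElem?_drop, List.drop_append_of_le_length (by omega)] at this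
          exact this
      · obtain ⟨v, hv⟩ := exists_legal hw
        refine ⟨v, hv, nodup_append hw hnd hv, ?_, ?_⟩
        · intro h
          simp only [List.length_append, List.length_singleton] at h
          exact (h1 (by omega)).append v
        · intro h
          simp only [List.length_append, List.length_singleton] at h
          exact (h2 (by omega)).append v
  · -- moves of A
    intro w hw ht hi v hv
    obtain ⟨hnd, h1, h2⟩ := hi
    have ht' := of_decide_eq_true ht
    refine ⟨nodup_append hw hnd hv, ?_, ?_⟩
    · intro h
      simp only [List.length_append, List.length_singleton] at h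
      have hne : w.length ≠ N - 2 := by
        intro hc
        rw [if_pos (by omega)] at ht'
        omega
      exact (h1 (by omega)).append v
    · intro h
      simp only [List.length_append, List.length_singleton] at h
      have hne : w.length ≠ 2 * N - 2 := by
        intro hc
        rw [if_neg (by omega)] at ht'
        omega
      exact (h2 (by omega)).append v
  · -- the end
    intro w hw hi hg
    obtain ⟨-, h1, h2⟩ := hi
    obtain ⟨σ, τ, hσ, hτ, hcl⟩ := hg
    have s1 : Perm.sign σ = 1 := h1 (by omega) σ (fun i _ => by rw [Nat.zero_add]; exact hσ i)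
    have s2 : Perm.sign τ = 1 := h2 (by omega) τ (fun i _ => hτ i)
    have hle : Subgroup.closure {σ, τ} ≤ (Perm.sign : Perm (Fin N) →* ℤˣ).ker := by
      rw [Subgroup.closure_le]
      rintro x (rfl | hx)
      · exact s1
      · rw [Set.mem_singleton_iff] at hx
        rw [hx]
        exact s2
    rw [hcl] at hle
    have hmem : swap (⟨0, by omega⟩ : Fin N) ⟨1, by omega⟩ ∈
        (Perm.sign : Perm (Fin N) →* ℤˣ).ker := hle (Subgroup.mem_top _)
    rw [MonoidHom.mem_ker, Perm.sign_swap (by simp)] at hmem
    exact absurd hmem (by decide)

end Odd

/-! ### Small cases -/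

theorem aWins_one : PlayerAWins 1 := by
  unfold PlayerAWins
  simp only [Wins]
  rw [if_pos (by decide)]
  refine ⟨0, by decide, ?_⟩
  rw [if_pos (by decide)]
  refine ⟨0, by decide, ?_⟩
  simp only [if_true]
  refine ⟨1, 1, by decide, by decide, ?_⟩
  exact Subsingleton.elim _ _

theorem aWins_two : PlayerAWins 2 := by
  unfold PlayerAWins
  simp only [Wins]
  rw [if_pos (by decide)]
  refine ⟨1, by decide, ?_⟩
  rw [if_neg (by decide)]
  intro v hv
  have hv0 : v = 0 := by
    revert hv
    revert v
    decide
  subst hv0
  rw [if_pos (by decide)]
  refine ⟨1, by decide, ?_⟩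
  rw [if_neg (by decide)]
  intro v hv
  have hv0 : v = 0 := by
    revert hv
    revert v
    decide
  subst hv0
  simp only [if_true]
  refine ⟨swap 0 1, swap 0 1, by decide, by decide, ?_⟩
  rw [eq_top_iff]
  intro g _
  have hall : ∀ g : Perm (Fin 2), g = 1 ∨ g = swap 0 1 := by decide
  have hg := hall g
  rcases hg with rfl | rfl
  · exact Subgroup.one_mem _
  · exact Subgroup.subset_closure (by simp)

/-- **Q1 of MP_337ab5_co.**  Under Convention I, player A has a winning strategy exactly for
`N = 1` and `N = 2`, and player B has a winning strategy exactly for `N ≥ 3`. -/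
theorem result (N : ℕ) (hN : 1 ≤ N) :
    (PlayerAWins N ↔ N ≤ 2) ∧ (PlayerBWins N ↔ 3 ≤ N) := by
  have hnb : PlayerAWins N → PlayerBWins N → False := not_both (2 * N) [] (by simp)
  have hB : 3 ≤ N → PlayerBWins N := by
    intro h3
    rcases Nat.mod_two_eq_zero_or_one N with h | h
    · exact bWins_even h h3
    · exact bWins_odd h h3
  have hA : N ≤ 2 → PlayerAWins N := by
    intro h2
    rcases (show N = 1 ∨ N = 2 by omega) with rfl | rfl
    · exact aWins_one
    · exact aWins_two
  refine ⟨⟨fun h => ?_, hA⟩, ⟨fun h => ?_, hB⟩⟩
  · by_contra hlt
    exact hnb h (hB (by omega))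
  · by_contra hlt
    exact hnb (hA (by omega)) h

end Pool.Agent.Results.MP_337ab5_co.ConventionOne
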